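import Pool.Agent.H65.CM.Subf
import Pool.Graph.R_pool_sql_team_seeded_2aa45f1a.Q135.Blk.Omega
import Pool.Graph.R_seed8.TH127.PG.Cond
import Pool.Graph.R_seed8.TH127.PG.TwoPairs2
import Pool.Graph.R_pool_sql_team_seeded_f72693b1.W527.DegFinal

/-!
# The transcendence degree of the periods of abelian varieties with complex multiplication by
nonabelian Galois CM fields

Let `A i = (E i, Φ i)` be finitely many CM types with ARBITRARY types `Φ i`. The periods of the
corresponding abelian varieties enter as a `PeriodSystem`: a nonzero number `θ A φ` for every CM type
`A = (E, Φ)` and every embedding `φ` of `E`, such that the theorem of Bost (de Rham-Betti classes of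
degree two on abelian varieties of CM type are Hodge classes; a consequence of the theorem of
Wüstholz) and the theorem of Deligne (Hodge classes on abelian varieties are de Rham-Betti classes)
hold. Both are theorems for the true periods.

Let `M` be a motive in the tensor category generated by the `h^1 (A i)` and `ℚ(1)`, for instance
`H^j(Y)` for a product `Y` of powers of the `A i`. Up to matrices with algebraic entries its period
matrix is the diagonal matrix of the periods of the lines, which are given by their weights (`Motive`).
The dimension of the Mumford-Tate group is `mumfordTateDim M`, the transcendence degree of the field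
of periods is `periodDegree P M`. Let `Z` be the closure of the point of the periods of `M` for the
Zariski topology over the field of algebraic numbers.

**Theorem.** If the blocks of the family satisfy `BlockR` (see below) then for every such motive `M`
the following are equivalent:

* `trdeg = dim MT(M)` (the conjecture of Grothendieck, Q1);
* `Z` is a torsor under a group defined over `ℚ` (`IsTorsor`);
* `Z` is the torsor of the Mumford-Tate group (`IsOmega`).

`BlockR` holds if all fields `E i` of the block satisfy `OddReduced`: `E i` is Galois over `ℚ`, and the
odd part of the rational group algebra of `Gal(E i / ℚ)` (the elements `x` with `c x = - x`, for the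
complex conjugation `c`) contains no `x ≠ 0` with `x ^ 2 = 0`. The last condition holds for all fields
with `DicyclicType`: the Galois group has an abelian subgroup `B` such that all elements outside `B`
have square `c`. These are the abelian fields and the nonabelian CM fields whose Galois group is
quaternion, dicyclic or generalized dicyclic (with `c` the distinguished involution). The earlier
result of the library, `MildCMDegree`, needs fields which are abelian over `ℚ`, or conditions on the
ramification or on the excess functions. The blocks are separated by partial complex conjugations
(`BlocksFlip`), which is no condition for a single block.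
-/

set_option autoImplicit false

namespace Pool.Agent.Results.MP_cbf1af_ag.ReducedGaloisCMDegree

open NumberField Module Pool.Agent.W547.KB Pool.Agent.W537.PC Pool.Agent.W527.Per
  Pool.Agent.W527.Struct Pool.Agent.TH127.SC Pool.Agent.TH127.PG Pool.Agent.Q135.Blk
  Pool.Agent.H65.CM Pool.Agent.W527.Degree

/-- The condition on the members of a block. -/
def BlockR {ι : Type} (A : ι → CMPair) : Prop :=
  (ReducedMildOrGood A ∧ SimpleSubfieldsR A) ∨
    (IsPrimitive A ∧ ∀ x : Embs (fun i => (A i).E), AtMostTwoPairs x)

/-- **The transcendence degree of the periods for abelian varieties with complex multiplication by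
Galois CM fields whose odd rational group algebra has no nilpotents.** -/
theorem result (P : PeriodSystem) (hBost : P.Bost) (hDeligne : P.Deligne) {ι β : Type} [Fintype ι]
    (A : ι → CMPair) (B : ι → β) (hflip : BlocksFlip (fun i => (A i).E) B) :
    ((∀ b, BlockR (fun i : {i // B i = b} => A i)) → ∀ M : Motive A,
      (periodDegree P M = mumfordTateDim M ↔ IsTorsor P M) ∧
      (periodDegree P M = mumfordTateDim M ↔ IsOmega P M)) ∧
    (∀ b, (∀ i, B i = b → OddReduced (A i).E) → BlockR (fun i : {i // B i = b} => A i)) ∧
    ∀ (F : Type) [Field F] [NumberField F], DicyclicType F → OddReduced F := by
  refine ⟨fun h M => ?_, fun b h => Or.inl (reduced_of_all fun i => h i.1 i.2),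
    fun F _ _ h => OddReduced.of_dicyclic h⟩
  refine degree_iff hDeligne (allHodge_of_blocks hDeligne B hflip fun b => ?_) M
  have _ : Fintype {i // B i = b} := Fintype.ofFinite _
  rcases h b with ⟨h2, h3⟩ | ⟨h2, h3⟩
  · exact (allHodge_iff_red _ hBost hDeligne h2).2
      (twoTerm_of_simpleSubfieldsR _ hBost hDeligne h3)
  · exact allHodge_of_twoPairs hBost hDeligne h2 h3

end Pool.Agent.Results.MP_cbf1af_ag.ReducedGaloisCMDegree
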